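import Pool.Agent.helper84.WZ.SpecA

/-! # wz: FL, the flow lemma -/

set_option autoImplicit false

namespace WZ

open Filter

theorem FL : FL_stmt := by
  intro h B S₀ Q nn a' e lng X Y H1 H2 H3 H4 H5 H6 H7 q hq
  have hX := (H5 q hq).1
  have h6 := H6 _ hq.1
  have hne : Q.Nonempty := by
    rw [Finset.nonempty_iff_ne_empty]
    intro hQ
    have h3 := H3 q
    have h1 := H1 q
    rw [hQ, Finset.sum_empty] at h3
    omega
  obtain ⟨π, hπ, hmax⟩ := Finset.exists_max_image Q (fun π => nn π * π q) hne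
  have hsum : ∑ π ∈ Q, nn π * π q ≤ Q.card * (nn π * π q) := by
    have := Finset.sum_le_card_nsmul Q (fun π => nn π * π q) (nn π * π q) hmax
    simpa using this
  have h3 := H3 q
  have h1 := H1 q
  have hbig : X (q / (2 * h + 2)) ≤ S₀ + Q.card * (nn π * π q) := by omega
  refine ⟨π, hπ, ?_, ?_⟩
  · intro h0
    rw [h0] at hbig
    simp only [mul_zero, add_zero] at hbig
    omega
  · intro q' hq'
    have e1 : nn π ≤ e q' := by
      have h4 := H3 q'
      have h5 : nn π * π q' ≤ ∑ π ∈ Q, nn π * π q' :=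
        Finset.single_le_sum (f := fun π => nn π * π q') (fun _ _ => Nat.zero_le _) hπ
      have h6 : nn π * 1 ≤ nn π * π q' := Nat.mul_le_mul_left _ (Nat.pos_of_ne_zero hq')
      omega
    have e2 : Q.card * (nn π * π q) ≤ Q.card * B * e q' := by
      calc Q.card * (nn π * π q) ≤ Q.card * (e q' * B) :=
            Nat.mul_le_mul_left _ (Nat.mul_le_mul e1 (H2 π hπ q))
        _ = Q.card * B * e q' := by ring
    have e3 : X (q / (2 * h + 2)) ≤ S₀ + Q.card * B * e q' := by omega
    have hLR : LR h lng q' := by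
      by_contra hn
      have h4 := H4 q' hn
      have h5 : Q.card * B * e q' ≤ Q.card * B * 2 := Nat.mul_le_mul_left _ (by omega)
      omega
    refine ⟨hLR, ?_⟩
    by_contra hlt
    push Not at hlt
    have h7 := H7 _ _ hq.1 hLR.1 hlt
    have h8 := (H5 q' hLR).2
    have h9 : Q.card * B * e q' ≤ Q.card * B * (Y (q' / (2 * h + 2)) + 1) :=
      Nat.mul_le_mul_left _ (by omega)
    omega

end WZ

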